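import Mathlib

namespace Pool.Agent.Results.MP_4c0b8d_co.Cex

open Finset

/-- A two-sided intersecting family of sets with `k` points in `X₁ = Fin n₁` and `l` points in
`X₂ = Fin n₂`; a set is given by the pair of its traces on `X₁` and `X₂`. -/
def TwoSided {n₁ n₂ : ℕ} (k l : ℕ) (F : Finset (Finset (Fin n₁) × Finset (Fin n₂))) : Prop :=
  (∀ A ∈ F, #A.1 = k ∧ #A.2 = l) ∧
  (∀ A ∈ F, ∀ B ∈ F, (A.1 ∩ B.1).Nonempty ∨ (A.2 ∩ B.2).Nonempty) ∧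
  (∃ A ∈ F, ∃ B ∈ F, A.1 ∩ B.1 = ∅) ∧ ∃ A ∈ F, ∃ B ∈ F, A.2 ∩ B.2 = ∅

/-- The quantity `A` of the problem; `B` is obtained by exchanging the two parts. -/
def bd (n₁ n₂ k l : ℕ) : ℤ :=
  (((n₂ - 1).choose (l - 1) : ℤ) - (n₂ - l - 1).choose (l - 1)) * n₁.choose k + 1 +
    n₁.choose k - (n₁ - k).choose k

theorem result : ¬ ∀ (n₁ n₂ k l : ℕ), 1 ≤ k → 1 ≤ l →
    ∀ F : Finset (Finset (Fin n₁) × Finset (Fin n₂)), TwoSided k l F →
      (#F : ℤ) ≤ max (bd n₁ n₂ k l) (bd n₂ n₁ l k) := by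
  intro h
  have := h 3 5 1 2 le_rfl (by norm_num)
    {({0}, {0, 1}), ({0}, {0, 2}), ({0}, {0, 3}), ({0}, {0, 4}), ({0}, {1, 2}),
      ({1}, {0, 1}), ({1}, {0, 2}), ({2}, {0, 1}), ({2}, {0, 2})}
    ⟨by decide +kernel, by decide +kernel, by decide +kernel, by decide +kernel⟩
  revert this
  decide +kernel

end Pool.Agent.Results.MP_4c0b8d_co.Cex
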