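import Pool.Agent.H20.RatPos2

namespace Pool.Agent.Results.MP_57f692_ag.Yes

open Pool.Agent.H20.RatPos Polynomial

theorem result :
    (∀ f, Pos (Set.Icc 0 ((2 : ℝ) ^ (1 / 3 : ℝ))) f ↔ InT ![X, 2 - X ^ 3] f) ∧
    (∀ f, Pos (Set.Icc √2 √3) f ↔ InT ![X, X ^ 2 - 2, 3 - X ^ 2] f) ∧
    (∀ f, Pos (Set.Icc (-(2 : ℝ) ^ (1 / 4 : ℝ)) ((2 : ℝ) ^ (1 / 4 : ℝ))) f ↔ InT ![2 - X ^ 4] f) ∧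
    InT ![X, X ^ 2 - 2, 3 - X ^ 2] (X - 1) :=
  all3

end Pool.Agent.Results.MP_57f692_ag.Yes
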