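import Mathlib

set_option autoImplicit false

namespace Pool.Agent.Results.MP_59f694_co.Q1
open Finset Module

lemma wedge_ne {K E : Type} [Field K] [AddCommGroup E] [Module K E] {d : ℕ} {v : Fin d → E}
    (hv : LinearIndependent K v) : exteriorPower.ιMulti K d v ≠ 0 := by
  have := (exteriorPower.ιMulti_family_linearIndependent_field (K := K) (n := d) hv).ne_zero
    (Set.powersetCard.ofFinEmbEquiv (OrderEmbedding.ofStrictMono id strictMono_id))
  rwa [exteriorPower.ιMulti_family, Equiv.symm_apply_apply] at this

lemma layer {K E : Type} [Field K] [AddCommGroup E] [Module K E] [Module.Finite K E] {m : ℕ}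
    (U V : Fin m → Submodule K E) (h1 : ∀ i, U i ⊓ V i = ⊥) (h2 : ∀ i j, i < j → U i ⊓ V j ≠ ⊥)
    (d : ℕ) : (univ.filter (fun j => finrank K (V j) = d)).card ≤ (finrank K E).choose d := by
  have hb : ∀ j : {j // finrank K (V j) = d}, ∃ b : Fin d → E,
      LinearIndependent K b ∧ Submodule.span K (Set.range b) = V j := by
    rintro ⟨j, hj⟩
    let B := finBasisOfFinrankEq K (V j) hj
    refine ⟨(V j).subtype ∘ B, B.linearIndependent.map' _ (Submodule.ker_subtype _), ?_⟩
    rw [Set.range_comp, Submodule.span_image, B.span_eq, Submodule.map_subtype_top]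
  choose b hb1 hb2 using hb
  have li : LinearIndependent K (fun j => exteriorPower.ιMulti K d (b j)) := by
    rw [Fintype.linearIndependent_iff]
    intro g hg j
    induction j using WellFoundedLT.induction with
    | ind j ih =>
      have := congrArg (exteriorPower.map d (U j).mkQ) hg
      rw [map_sum, map_zero, sum_eq_single j] at this
      · rw [map_smul, exteriorPower.map_apply_ιMulti] at this
        refine (smul_eq_zero.1 this).resolve_right (wedge_ne ((hb1 j).map ?_))
        rw [hb2, Submodule.ker_mkQ, disjoint_iff, inf_comm]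
        exact h1 j
      · intro k _ hk
        rcases lt_or_gt_of_ne hk with h | h
        · rw [ih k h, zero_smul, map_zero]
        · rw [map_smul, exteriorPower.map_apply_ιMulti, AlternatingMap.map_linearDependent,
            smul_zero]
          intro hl
          have := Submodule.range_ker_disjoint hl
          rw [hb2, Submodule.ker_mkQ, disjoint_iff, inf_comm] at this
          exact h2 j k h this
      · intro h; exact absurd (mem_univ j) h
  have := li.fintype_card_le_finrank
  rwa [exteriorPower.finrank_eq, Fintype.card_subtype] at this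

theorem result (F : Type) [Field F] (n m : ℕ) (U V : Fin m → Submodule F (Fin (n + 1) → F))
    (hU : ∀ i, U i ≠ ⊥) (hV : ∀ i, V i ≠ ⊥) (h1 : ∀ i, U i ⊓ V i = ⊥)
    (h2 : ∀ i j, i < j → U i ⊓ V j ≠ ⊥) : m ≤ 2 ^ (n + 1) - 2 := by
  have hE : finrank F (Fin (n + 1) → F) = n + 1 := by simp
  have hd : ∀ j ∈ (univ : Finset (Fin m)), finrank F (V j) ∈ Ioo 0 (n + 1) := by
    intro j _
    have a : finrank F (V j) ≠ 0 := fun h => hV j (Submodule.finrank_eq_zero.1 h)
    have b : finrank F (U j) ≠ 0 := fun h => hU j (Submodule.finrank_eq_zero.1 h)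
    have c := Submodule.finrank_sup_add_finrank_inf_eq (U j) (V j)
    have e := Submodule.finrank_le (U j ⊔ V j)
    rw [h1, finrank_bot] at c
    exact mem_Ioo.2 ⟨by omega, by omega⟩
  have s := card_eq_sum_card_fiberwise hd
  rw [card_univ, Fintype.card_fin] at s
  have t : ∑ d ∈ Ioo 0 (n + 1), (univ.filter (fun j => finrank F (V j) = d)).card ≤
      ∑ d ∈ Ioo 0 (n + 1), (n + 1).choose d :=
    sum_le_sum fun d _ => (layer U V h1 h2 d).trans (by rw [hE])
  have u := Nat.sum_range_choose (n + 1)
  rw [sum_range_succ, range_eq_Ico, ← sum_Ioo_add_eq_sum_Ico (by omega), Nat.choose_self,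
    Nat.choose_zero_right] at u
  omega

end Pool.Agent.Results.MP_59f694_co.Q1
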