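import Mathlib

set_option autoImplicit false

namespace Pool.Agent.Results.MP_e77370_co.AK

open Finset

def M1 (n q t : ℕ) (k : ℕ → ℕ) : ℤ :=
  (n.choose (k 1) : ℤ) - ∑ j ∈ range q, ((k t).choose j * (n - k t).choose (k 1 - j) : ℕ) +
    ∑ j ∈ Icc 2 t, ((n - k t).choose (k j - k t) : ℕ)

def M2 (n q t : ℕ) (k : ℕ → ℕ) : ℤ := ∑ j ∈ Icc 1 t, ((n - q).choose (k j - q) : ℕ)

theorem result : ∃ (n q t : ℕ) (k : ℕ → ℕ) (F : ℕ → Finset (Finset (Fin n))), 2 ≤ t ∧ 1 ≤ q ∧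
    (∀ i j, 1 ≤ i → i ≤ j → j ≤ t → k j ≤ k i) ∧ q + 1 ≤ k t ∧ k 1 + k 2 + 1 ≤ n + q ∧
    (∀ j ∈ Icc 1 t, (F j).Nonempty ∧ ∀ A ∈ F j, A.card = k j) ∧
    (∀ i ∈ Icc 1 t, ∀ j ∈ Icc 1 t, i ≠ j → ∀ A ∈ F i, ∀ B ∈ F j, q ≤ (A ∩ B).card) ∧
    max (M1 n q t k) (M2 n q t k) < (∑ j ∈ Icc 1 t, (F j).card : ℕ) :=
  ⟨5, 2, 3, fun _ => 3, fun _ => powersetCard 3 {0, 1, 2, 3}, by norm_num, by norm_num,
    fun _ _ _ _ _ => le_rfl, le_rfl, le_rfl, fun _ _ => by beta_reduce; decide,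
    fun _ _ _ _ _ => by beta_reduce; decide, by decide⟩

end Pool.Agent.Results.MP_e77370_co.AK
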