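import Pool.Statements.S13885

set_option autoImplicit false
open Pool Pool.MP_c36963_gt

namespace Pool.Agent.S13885

theorem result :
    ∃ r : ℂ → ℂ,
      (∀ z ∈ Metric.closedBall (0:ℂ) 1, r z ∈ Metric.sphere (0:ℂ) 1) ∧
      (∀ y ∈ Metric.sphere (0:ℂ) 1, r y = y) ∧
      (∀ y ∈ Metric.sphere (0:ℂ) 1,
        IsConnected {z : ℂ | z ∈ Metric.closedBall (0:ℂ) 1 ∧ r z = y}) ∧
      Set.Finite {y : ℂ | y ∈ Metric.sphere (0:ℂ) 1 ∧
        ¬ (∀ s : ℕ → ℂ, (∀ n, s n ∈ Metric.sphere (0:ℂ) 1) →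
            Filter.Tendsto s Filter.atTop (nhds y) →
            ∀ x : ℂ, (∀ ε : ℝ, ε > 0 → ∀ N : ℕ, ∃ n : ℕ, n ≥ N ∧
                ∃ z : ℂ, z ∈ Metric.closedBall (0:ℂ) 1 ∧ r z = s n ∧ dist z x < ε) →
              r x = y)} := by
  classical
  refine ⟨fun z => if ‖z‖ = 1 then z else 1, fun z _ => ?_, fun y hy => ?_, fun y hy => ?_, ?_⟩
  · by_cases h : ‖z‖ = 1 <;> simp [h]
  · exact if_pos (by simpa using hy)
  · have hy1 : ‖y‖ = 1 := by simpa using hy
    by_cases h1 : y = 1
    · subst h1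
      refine ⟨⟨1, by simp⟩, ((convex_ball (0 : ℂ) 1).isPreconnected.subset_closure ?_ ?_)⟩
      · intro z hz
        have hz : ‖z‖ < 1 := by simpa using hz
        exact ⟨by simpa using hz.le, if_neg hz.ne⟩
      · rw [closure_ball _ one_ne_zero]; exact fun z hz => hz.1
    · convert isConnected_singleton (x := y) using 1
      ext z
      refine ⟨fun ⟨_, h⟩ => ?_, fun h => ?_⟩
      · by_cases h2 : ‖z‖ = 1
        · simpa [h2] using h
        · exact absurd (by simpa [h2] using h.symm) h1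
      · rw [Set.mem_singleton_iff.1 h]
        exact ⟨by simp [hy1], if_pos hy1⟩
  · refine (Set.finite_singleton 1).subset fun y ⟨hy, h⟩ => ?_
    by_contra h1
    refine h fun s _ hs x hx => ?_
    have hy1 : ‖y‖ = 1 := by simpa using hy
    have : x = y := by
      refine eq_of_forall_dist_le fun ε hε => ?_
      obtain ⟨N, hN⟩ := Filter.eventually_atTop.1 ((hs.eventually_ne h1).and
        (hs.eventually (Metric.ball_mem_nhds y (half_pos hε))))
      obtain ⟨n, hn, z, -, h2, h3⟩ := hx (ε / 2) (half_pos hε) N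
      have h4 : z = s n := by
        by_cases h5 : ‖z‖ = 1
        · simpa [h5] using h2
        · exact absurd (by simpa [h5] using h2.symm) (hN n hn).1
      have h5 : dist (s n) y < ε / 2 := (hN n hn).2
      rw [h4] at h3
      linarith [dist_triangle_left x y (s n)]
    rw [this]; exact if_pos hy1

end Pool.Agent.S13885
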